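import Pool.Agent.TH313.NA.PropA
import Pool.Agent.TH313.NA.Range

/-!
# MP_5ffaeb_an, Q2: density of norm-attaining operators does not pass to one-complemented subspaces

`X` is the space `c₀ × c₀` with the norm whose closed unit ball is the closed absolutely convex hull of
the vectors `x n = (p n, y n + e n)`, where `(p n, y n)` runs infinitely often through a dense subset
of `{(p, y) : ‖p‖ < 1, ‖y‖ < 1/4}`. As averages of many `e n` are small, the ball contains
`{(p, y) : ‖p‖ < 1, ‖y‖ < 1/4}`; so the norm is equivalent to the product norm, it is the usual norm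
on `c₀ × {0}`, and `(p, y) ↦ (p, 0)` is a projection of norm one. The functionals
`(p, y) ↦ y(n) / (1 + y n (n))` are one at `x n` and at most `1/3` in modulus at the other `x m`
(Lindenstrauss, Schachermayer: property alpha), so for every Banach space `Z` the norm-attaining
operators are dense in `L(X, Z)`. For a strictly convex renorming `Y` of `c₀` they are not dense in
`L(c₀, Y)` (Lindenstrauss).
-/

set_option autoImplicit false

namespace Pool.Agent.Results.MP_5ffaeb_an.DensityNotInherited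

universe u v

/-- The set `NA(X, Y)` of norm-attaining operators: those `T` for which there is a vector `x` of
norm one with `‖T x‖ = ‖T‖`. -/
def NA (𝕜 : Type*) (X Y : Type*) [RCLike 𝕜] [NormedAddCommGroup X] [NormedSpace 𝕜 X]
    [NormedAddCommGroup Y] [NormedSpace 𝕜 Y] : Set (X →L[𝕜] Y) :=
  {T | ∃ x : X, ‖x‖ = 1 ∧ ‖T x‖ = ‖T‖}

/-- `X₁` is the range of a linear projection of norm at most one. -/
def OneComplemented {𝕜 X : Type*} [RCLike 𝕜] [NormedAddCommGroup X] [NormedSpace 𝕜 X]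
    (X₁ : Submodule 𝕜 X) : Prop :=
  ∃ P : X →L[𝕜] X, ‖P‖ ≤ 1 ∧ (∀ x, P x ∈ X₁) ∧ ∀ x ∈ X₁, P x = x

open Pool.Agent.TH313.PA in
/-- Over both scalar fields there are Banach spaces `X` and `Y` and a closed one-complemented
subspace `X₁` of `X` such that the norm-attaining operators are dense in `L(X, Y)`, and even in
`L(X, Z)` for every Banach space `Z`, but they are not dense in `L(X₁, Y)`. -/
theorem result (𝕜 : Type u) [RCLike 𝕜] :
    ∃ (X : Type u) (_ : NormedAddCommGroup X) (_ : NormedSpace 𝕜 X) (_ : CompleteSpace X)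
      (Y : Type u) (_ : NormedAddCommGroup Y) (_ : NormedSpace 𝕜 Y) (_ : CompleteSpace Y)
      (X₁ : Submodule 𝕜 X),
      IsClosed (X₁ : Set X) ∧ OneComplemented X₁ ∧
      (∀ (Z : Type v) [NormedAddCommGroup Z] [NormedSpace 𝕜 Z] [CompleteSpace Z],
        Dense (NA 𝕜 X Z)) ∧
      Dense (NA 𝕜 X Y) ∧ ¬ Dense (NA 𝕜 X₁ Y) := by
  refine ⟨XX 𝕜, inferInstance, inferInstance, inferInstance, YY 𝕜, inferInstance, inferInstance,
    inferInstance, X1 𝕜, isClosed_X1, ⟨PP, norm_PP_le, PP_mem, fun x hx => PP_eq hx⟩,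
    fun Z _ _ _ => dense_NA Z, dense_NA (YY 𝕜), fun hd => ?_⟩
  let j := iX1 𝕜
  let T : X1 𝕜 →L[𝕜] YY 𝕜 :=
    (toYY 𝕜 : C0 𝕜 →L[𝕜] YY 𝕜).comp (j.symm.toContinuousLinearEquiv : X1 𝕜 →L[𝕜] C0 𝕜)
  obtain ⟨S, ⟨x, hx, hSx⟩, hdist⟩ := Metric.mem_closure_iff.1 (hd T) 1 one_pos
  let S' : C0 𝕜 →L[𝕜] YY 𝕜 := S.comp (j.toContinuousLinearEquiv : C0 𝕜 →L[𝕜] X1 𝕜)
  have hS' : ∀ y, S' y = S (j y) := fun y => rfl
  obtain ⟨n, hn⟩ := exists_eq_zero S' (j.symm x) (by rw [j.symm.norm_map, hx]) (fun y hy => by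
    rw [hS', hS', j.apply_symm_apply, hSx]
    refine (S.le_opNorm _).trans ?_
    rw [j.norm_map]
    exact mul_le_of_le_one_right (norm_nonneg _) hy)
  have h1 : (T - S) (j (e n)) = toYY 𝕜 (e n) := by
    rw [ContinuousLinearMap.sub_apply, ← hS' (e n), hn, sub_zero]
    change toYY 𝕜 (j.symm (j (e n))) = _
    rw [j.symm_apply_apply]
  have h2 := (T - S).le_opNorm (j (e n))
  rw [h1, j.norm_map] at h2
  have h3 := one_le_norm_toYY_e (𝕜 := 𝕜) n
  have h4 := norm_e_le (𝕜 := 𝕜) n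
  rw [dist_eq_norm] at hdist
  nlinarith [norm_nonneg (T - S), norm_nonneg (e n : C0 𝕜)]

end Pool.Agent.Results.MP_5ffaeb_an.DensityNotInherited
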